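import Mathlib
import Pool.Graph.R_pool_sql_team_seeded_3997aac3.Q162.Sph.Final

/-!
# Spherical parking functions by degree and uprooted trees by surface inversions: the common
# generating function

`IsSpherical`, `UprootedTree` and `UprootedTree.surfaceInversions` are the definitions of
`Pool/Graph/R_pool_sql_team_seeded_3997aac3/Q162/Sph` and follow the problem file.
-/

set_option autoImplicit false

namespace Pool.Agent.Results.MP_dc922b_co.GeneratingFunction

open Finset Polynomial Q162Sph

/-- The number of spherical parking functions of length `n` and of degree `C(n,2) + 1 - k`. -/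
noncomputable def sph (n k : ℕ) : ℕ :=
  Nat.card {a : Fin n → ℕ // IsSpherical a ∧ ∑ i, a i + k = n.choose 2 + 1}

/-- The number of uprooted trees on `n` labelled vertices with exactly `k` surface inversions. -/
noncomputable def upr (n k : ℕ) : ℕ := Nat.card {T : UprootedTree n // T.surfaceInversions = k}

/-- The generating polynomial `V_n(q) = ∑_k sph n k q^k` (the variable `q` is `X`). -/
noncomputable def V (n : ℕ) : ℤ[X] := ∑ k ∈ range (n.choose 2 + 2), C (sph n k : ℤ) * X ^ k

/-- The exponential generating function `F = ∑_{n ≥ 1} (q - 1)^n V_n(q) x^n / n!`. -/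
noncomputable def F : PowerSeries ℚ[X] := PowerSeries.mk fun n =>
  if n = 0 then 0 else C ((n.factorial : ℚ)⁻¹) * ((X - 1) ^ n * (V n).map (Int.castRingHom ℚ))

/-- `E = ∑_{n ≥ 0} q^(n(n-1)/2) x^n / n!`. -/
noncomputable def E : PowerSeries ℚ[X] := PowerSeries.mk fun n =>
  C ((n.factorial : ℚ)⁻¹) * X ^ n.choose 2

/-- The integral `∫_0^x E = ∑_{n ≥ 1} q^((n-1)(n-2)/2) x^n / n!` of `E`. -/
noncomputable def intE : PowerSeries ℚ[X] := PowerSeries.mk fun n =>
  if n = 0 then 0 else C ((n.factorial : ℚ)⁻¹) * X ^ (n - 1).choose 2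

/-! ### The enumerator of a set depends only on its size -/

/-- the enumerator for `Fin m` at `q = t + 1` -/
noncomputable def g (t m : ℕ) : ℕ := VV (t + 1) (univ : Finset (Fin m))

theorem sum_erase_card {α : Type} [DecidableEq α] (Y : Finset α) (S : Finset (Finset α))
    (hS : ∀ Z, Z ∈ S ↔ Z ⊆ Y ∧ Z.Nonempty ∧ Z ≠ Y) (f : ℕ → ℕ) :
    ∑ Z ∈ S, f Z.card =
      ∑ m ∈ range (Y.card + 1), Y.card.choose m • (if m = 0 ∨ m = Y.card then 0 else f m) := by
  rw [← Finset.sum_powerset_apply_card (fun m => if m = 0 ∨ m = Y.card then 0 else f m)]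
  refine (Finset.sum_congr rfl fun Z hZ => ?_).trans (Finset.sum_subset ?_ ?_)
  · rw [hS] at hZ
    have h1 : Z.card < Y.card :=
      Finset.card_lt_card (Finset.ssubset_iff_subset_ne.mpr ⟨hZ.1, hZ.2.2⟩)
    have h2 : 0 < Z.card := hZ.2.1.card_pos
    rw [if_neg (by omega)]
  · intro Z hZ
    exact mem_powerset.2 ((hS Z).1 hZ).1
  · intro Z hZ hZ'
    rw [mem_powerset] at hZ
    rw [hS] at hZ'
    by_cases h : Z = Y
    · rw [if_pos (Or.inr (by rw [h]))]
    · by_cases h' : Z.Nonempty
      · exact absurd ⟨hZ, h', h⟩ hZ'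
      · rw [if_pos (Or.inl (by rw [Finset.card_eq_zero]; exact Finset.not_nonempty_iff_eq_empty.1 h'))]

theorem sum_nonempty_card {α : Type} [DecidableEq α] (Y : Finset α) (S : Finset (Finset α))
    (hS : ∀ Z, Z ∈ S ↔ Z ⊆ Y ∧ Z.Nonempty) (f : ℕ → ℕ) :
    ∑ Z ∈ S, f Z.card =
      ∑ m ∈ range (Y.card + 1), Y.card.choose m • (if m = 0 then 0 else f m) := by
  rw [← Finset.sum_powerset_apply_card (fun m => if m = 0 then 0 else f m)]
  refine (Finset.sum_congr rfl fun Z hZ => ?_).trans (Finset.sum_subset ?_ ?_)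
  · rw [hS] at hZ
    have h2 : 0 < Z.card := hZ.2.card_pos
    rw [if_neg (by omega)]
  · intro Z hZ
    exact mem_powerset.2 ((hS Z).1 hZ).1
  · intro Z hZ hZ'
    rw [mem_powerset] at hZ
    rw [hS] at hZ'
    rw [if_pos]
    rw [Finset.card_eq_zero]
    by_contra h'
    exact hZ' ⟨hZ, Finset.nonempty_iff_ne_empty.2 h'⟩

theorem ident_of {t n : ℕ} (ht : 1 ≤ t)
    (ih : ∀ m < n, ∀ (β : Type) [Fintype β] [DecidableEq β] (Z : Finset β), Z.card = m →
      Z.Nonempty → VV (t + 1) Z = g t m)
    (α : Type) [Fintype α] [DecidableEq α] (Y : Finset α) (hY : Y.card = n) (hne : Y.Nonempty) :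
    t ^ n * VV (t + 1) Y + (∑ m ∈ range (n + 1), n.choose m •
        (if m = 0 ∨ m = n then 0 else t ^ m * g t m * (t + 1) ^ ((n - m).choose 2)))
      + (t + 1) ^ ((n - 1).choose 2) = (t + 1) ^ (n + (n - 1).choose 2) := by
  have h1 := VV_identity t ht Y hne
  have hmem : Y ∈ Y.powerset.filter (fun Z => Z.Nonempty) :=
    mem_filter.mpr ⟨mem_powerset_self Y, hne⟩
  rw [← Finset.add_sum_erase _ _ hmem] at h1
  have h2 : ∑ Z ∈ (Y.powerset.filter (fun Z => Z.Nonempty)).erase Y, t ^ Z.card *
        VV (t + 1) Z * (t + 1) ^ ((Y.card - Z.card).choose 2) =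
      ∑ Z ∈ (Y.powerset.filter (fun Z => Z.Nonempty)).erase Y,
        (fun m => t ^ m * g t m * (t + 1) ^ ((n - m).choose 2)) Z.card := by
    refine Finset.sum_congr rfl fun Z hZ => ?_
    rw [mem_erase, mem_filter, mem_powerset] at hZ
    have hlt : Z.card < n := by
      rw [← hY]
      exact Finset.card_lt_card (Finset.ssubset_iff_subset_ne.mpr ⟨hZ.2.1, hZ.1⟩)
    rw [ih Z.card hlt α Z rfl hZ.2.2, hY]
  rw [h2, sum_erase_card Y _ (fun Z => by
    rw [mem_erase, mem_filter, mem_powerset]; tauto)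
    (fun m => t ^ m * g t m * (t + 1) ^ ((n - m).choose 2)), hY] at h1
  simpa using h1

theorem VV_card {t : ℕ} (ht : 1 ≤ t) : ∀ (n : ℕ) (α : Type) [Fintype α] [DecidableEq α]
    (Y : Finset α), Y.card = n → Y.Nonempty → VV (t + 1) Y = g t n := by
  intro n
  induction n using Nat.strong_induction_on with
  | _ n ih =>
    intro α _ _ Y hY hne
    have hn : 0 < n := by rw [← hY]; exact hne.card_pos
    have h1 := ident_of ht ih α Y hY hne
    have h2 := ident_of ht ih (Fin n) (univ : Finset (Fin n)) (by simp) ⟨⟨0, hn⟩, mem_univ _⟩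
    have h3 : t ^ n * VV (t + 1) Y = t ^ n * VV (t + 1) (univ : Finset (Fin n)) := by omega
    exact Nat.eq_of_mul_eq_mul_left (pow_pos (by omega) _) h3

theorem identity_nat {t : ℕ} (ht : 1 ≤ t) {n : ℕ} (hn : 1 ≤ n) :
    (∑ m ∈ range (n + 1), n.choose m *
        (if m = 0 then 0 else t ^ m * g t m * (t + 1) ^ ((n - m).choose 2)))
      + (t + 1) ^ ((n - 1).choose 2) = (t + 1) ^ (n + (n - 1).choose 2) := by
  have h1 := VV_identity t ht (univ : Finset (Fin n)) ⟨⟨0, hn⟩, mem_univ _⟩
  have h2 : ∑ Z ∈ (univ : Finset (Fin n)).powerset.filter (fun Z => Z.Nonempty), t ^ Z.card *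
        VV (t + 1) Z * (t + 1) ^ (((univ : Finset (Fin n)).card - Z.card).choose 2) =
      ∑ Z ∈ (univ : Finset (Fin n)).powerset.filter (fun Z => Z.Nonempty),
        (fun m => t ^ m * g t m * (t + 1) ^ ((n - m).choose 2)) Z.card := by
    refine Finset.sum_congr rfl fun Z hZ => ?_
    rw [mem_filter, mem_powerset] at hZ
    rw [VV_card ht Z.card (Fin n) Z rfl hZ.2, Finset.card_univ, Fintype.card_fin]
  rw [h2, sum_nonempty_card (univ : Finset (Fin n)) _ (fun Z => by
    rw [mem_filter, mem_powerset])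
    (fun m => t ^ m * g t m * (t + 1) ^ ((n - m).choose 2)), Finset.card_univ,
    Fintype.card_fin] at h1
  simpa using h1

/-! ### The polynomials -/

theorem sph_eq_zero {n k : ℕ} (hk : n.choose 2 + 2 ≤ k) : sph n k = 0 := by
  unfold sph
  rw [Nat.card_eq_zero]
  left
  refine ⟨fun a => ?_⟩
  have := a.2.2
  omega

theorem coeff_V (n k : ℕ) : (V n).coeff k = (sph n k : ℤ) := by
  unfold V
  rw [Polynomial.finsetSum_coeff]
  simp only [Polynomial.coeff_C_mul_X_pow]
  rw [Finset.sum_ite_eq]
  split_ifs with h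
  · rfl
  · rw [mem_range, not_lt] at h
    rw [sph_eq_zero h]; rfl

theorem V_eq {n : ℕ} (hn : 1 ≤ n) : V n = ∑ a ∈ primes (univ : Finset (Fin n)),
    (X : ℤ[X]) ^ (n.choose 2 + 1 - ∑ x, a x) := by
  ext k
  rw [coeff_V, coeff_sum_X]
  unfold sph
  rw [card_spherical hn]

theorem eval_V {n : ℕ} (hn : 1 ≤ n) (t : ℕ) : (V n).eval ((t : ℤ) + 1) = (g t n : ℤ) := by
  rw [V_eq hn, Polynomial.eval_finsetSum]
  unfold g VV
  push_cast
  rw [Finset.card_univ, Fintype.card_fin]
  refine Finset.sum_congr rfl fun a _ => ?_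
  rw [Polynomial.eval_pow, Polynomial.eval_X]

theorem identity_poly {n : ℕ} (hn : 1 ≤ n) :
    ∑ m ∈ range (n + 1), (n.choose m : ℤ[X]) *
        (if m = 0 then 0 else (X - 1) ^ m * V m * X ^ ((n - m).choose 2)) =
      (X ^ n - 1) * X ^ ((n - 1).choose 2) := by
  apply Polynomial.eq_of_infinite_eval_eq
  apply Set.Infinite.mono (s := Set.range (fun t : ℕ => ((t : ℤ) + 1) + 1))
  · rintro x ⟨t, rfl⟩
    have h := identity_nat (t := t + 1) (by omega) hn
    have h' : ((∑ m ∈ range (n + 1), n.choose m *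
        (if m = 0 then 0 else (t + 1) ^ m * g (t + 1) m * (t + 1 + 1) ^ ((n - m).choose 2)) : ℕ) : ℤ)
        + ((t : ℤ) + 1 + 1) ^ ((n - 1).choose 2) =
        ((t : ℤ) + 1 + 1) ^ (n + (n - 1).choose 2) := by
      exact_mod_cast h
    show Polynomial.eval _ _ = Polynomial.eval _ _
    rw [Polynomial.eval_finsetSum]
    have h2 : ∀ m ∈ range (n + 1), Polynomial.eval ((t : ℤ) + 1 + 1) ((n.choose m : ℤ[X]) *
        (if m = 0 then 0 else (X - 1) ^ m * V m * X ^ ((n - m).choose 2))) =
        ((n.choose m * (if m = 0 then 0 else (t + 1) ^ m * g (t + 1) m *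
          (t + 1 + 1) ^ ((n - m).choose 2)) : ℕ) : ℤ) := by
      intro m _
      by_cases hm : m = 0
      · simp [hm]
      · have e := eval_V (n := m) (by omega) (t + 1)
        push_cast at e
        rw [if_neg hm, if_neg hm]
        simp only [Polynomial.eval_mul, Polynomial.eval_pow, Polynomial.eval_sub,
          Polynomial.eval_X, Polynomial.eval_one, Polynomial.eval_natCast, e]
        push_cast
        ring
    rw [Finset.sum_congr rfl h2, ← Nat.cast_sum]
    simp only [Polynomial.eval_mul, Polynomial.eval_pow, Polynomial.eval_sub,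
      Polynomial.eval_X, Polynomial.eval_one]
    have h3 : ((t : ℤ) + 1 + 1) ^ (n + (n - 1).choose 2) =
      ((t : ℤ) + 1 + 1) ^ n * ((t : ℤ) + 1 + 1) ^ ((n - 1).choose 2) := pow_add _ _ _
    rw [h3] at h'
    linear_combination h'
  · apply Set.infinite_range_of_injective
    intro a b h
    simp only at h
    omega

/-- **The common generating function.** (1) For all `n ≥ 1` and `k` the number of spherical parking
functions of length `n` and of degree `C(n,2) - k + 1` is the number of uprooted trees on `n`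
vertices with `k` surface inversions. (2) With `V_n(q) = ∑_k sph n k q^k`, whose coefficients are
these numbers, one has for all `n ≥ 1`
`∑_{1 ≤ m ≤ n} C(n,m) (q-1)^m V_m(q) q^C(n-m,2) = (q^n - 1) q^C(n-1,2)`. (3) In terms of
exponential generating functions, `F = ∑_{n ≥ 1} (q-1)^n V_n(q) x^n/n!` is `q - (q + ∫E) / E`, where
`E = ∑_{n ≥ 0} q^C(n,2) x^n/n!`. -/
theorem result :
    (∀ n k : ℕ, 1 ≤ n → sph n k = upr n k) ∧
    (∀ n k : ℕ, (V n).coeff k = (sph n k : ℤ)) ∧
    (∀ n : ℕ, 1 ≤ n → ∑ m ∈ Icc 1 n, (n.choose m : ℤ[X]) *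
        ((X - 1) ^ m * V m * X ^ ((n - m).choose 2)) = (X ^ n - 1) * X ^ ((n - 1).choose 2)) ∧
    F * E = PowerSeries.C (X : ℚ[X]) * (E - 1) - intE := by
  refine ⟨fun n k hn => Q162Sph.main hn k, coeff_V, fun n hn => ?_, ?_⟩
  · rw [← identity_poly hn]
    symm
    rw [← Finset.sum_subset (s₁ := Icc 1 n)]
    · refine Finset.sum_congr rfl fun m hm => ?_
      rw [mem_Icc] at hm
      rw [if_neg (by omega)]
    · intro m hm
      rw [mem_Icc] at hm
      rw [mem_range]; omega
    · intro m hm hm'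
      rw [mem_range] at hm
      rw [mem_Icc] at hm'
      have : m = 0 := by omega
      rw [if_pos this, mul_zero]
  · ext1 n
    rw [PowerSeries.coeff_mul, Finset.Nat.sum_antidiagonal_eq_sum_range_succ_mk]
    simp only [map_sub, PowerSeries.coeff_C_mul]
    unfold F E intE
    simp only [PowerSeries.coeff_mk, PowerSeries.coeff_one]
    rcases Nat.eq_zero_or_pos n with rfl | hn
    · simp
    · have h := congrArg (Polynomial.map (Int.castRingHom ℚ)) (identity_poly hn)
      rw [Polynomial.map_sum] at h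
      have h2 : ∀ m ∈ range (n + 1), (if m = 0 then (0 : ℚ[X]) else C ((m.factorial : ℚ)⁻¹) *
            ((X - 1) ^ m * (V m).map (Int.castRingHom ℚ))) *
            (C (((n - m).factorial : ℚ)⁻¹) * X ^ (n - m).choose 2) =
          C ((n.factorial : ℚ)⁻¹) * Polynomial.map (Int.castRingHom ℚ) ((n.choose m : ℤ[X]) *
            (if m = 0 then 0 else (X - 1) ^ m * V m * X ^ ((n - m).choose 2))) := by
        intro m hm
        rw [mem_range] at hm
        by_cases hm0 : m = 0
        · simp [hm0]
        · rw [if_neg hm0, if_neg hm0]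
          have hc : ((n.choose m : ℕ) : ℚ) =
              (n.factorial : ℚ) * (m.factorial : ℚ)⁻¹ * ((n - m).factorial : ℚ)⁻¹ := by
            rw [Nat.choose_eq_factorial_div_factorial (by omega),
              Nat.cast_div (Nat.factorial_mul_factorial_dvd_factorial (by omega))
                (by positivity)]
            push_cast
            field_simp
          have hf : (n.factorial : ℚ) ≠ 0 := by positivity
          have hC : C ((m.factorial : ℚ)⁻¹) * C (((n - m).factorial : ℚ)⁻¹) =
              C ((n.factorial : ℚ)⁻¹) * ((n.choose m : ℕ) : ℚ[X]) := by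
            rw [← map_mul, ← Polynomial.C_eq_natCast, ← map_mul, hc]
            congr 1
            field_simp
          simp only [Polynomial.map_mul, Polynomial.map_pow, Polynomial.map_sub,
            Polynomial.map_X, Polynomial.map_one, Polynomial.map_natCast]
          linear_combination ((X - 1) ^ m * (V m).map (Int.castRingHom ℚ) *
            X ^ ((n - m).choose 2)) * hC
      rw [Finset.sum_congr rfl h2, ← Finset.mul_sum, h]
      have hch : n.choose 2 + 1 = n + (n - 1).choose 2 := by
        obtain ⟨j, rfl⟩ : ∃ j, n = j + 1 := ⟨n - 1, by omega⟩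
        rw [Nat.add_sub_cancel, Nat.choose_succ_succ' j 1, Nat.choose_one_right]
        ring
      have hX : (X : ℚ[X]) * X ^ n.choose 2 = X ^ n * X ^ (n - 1).choose 2 := by
        rw [← pow_succ', hch, pow_add]
      rw [if_neg (by omega), if_neg (by omega)]
      simp only [Polynomial.map_mul, Polynomial.map_pow, Polynomial.map_sub,
        Polynomial.map_X, Polynomial.map_one]
      linear_combination (-(C ((n.factorial : ℚ)⁻¹))) * hX

end Pool.Agent.Results.MP_dc922b_co.GeneratingFunction
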