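import Pool.Agent.KS6_13.SP.Main

/-!
# Spherical parking functions and uprooted trees: the root is the position of the last `1`
-/

set_option autoImplicit false

namespace Pool.Agent.Results.MP_dc922b_co.RefinedByRoot

open Pool.Agent.Results.MP_dc922b_co.SurfaceInversions

theorem result : ∀ n : ℕ, 1 ≤ n → ∀ k : ℕ,
    (∀ r : Fin n,
      Nat.card {a : Fin n → ℕ // Spherical a ∧ ∑ i, a i + k = n.choose 2 + 1 ∧
        a r = 1 ∧ ∀ i, r < i → a i ≠ 1} =
      Nat.card {T : RootedTree n // T.Uprooted ∧ T.root = r ∧ T.surfaceInversions = k}) ∧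
    Nat.card {a : Fin n → ℕ // Spherical a ∧ ∑ i, a i + k = n.choose 2 + 1} =
      Nat.card {T : RootedTree n // T.Uprooted ∧ T.surfaceInversions = k} :=
  fun n hn k => ⟨Pool.Agent.KS6_13.SP.final n hn k,
    Pool.Agent.Results.MP_dc922b_co.SurfaceInversions.result n hn k⟩

end Pool.Agent.Results.MP_dc922b_co.RefinedByRoot
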